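import Mathlib

/-!
# `H^∞ + θ L^∞` need not be a generalized Douglas algebra

We answer in the negative the question whether `H^∞ + θ L^∞` is a generalized Douglas algebra
for every bounded outer function `θ`.

Idea. Let `L(z) = log((1-z)/2)`, `θ = exp(L/2 - i L²/(2π))` and `h = exp(iL)`.
On the unit circle `|θ(e^{it})| = sin(t/2)^{t/(2π)}` (`0 < t < 2π`), which is small only when `t` is
close to `2π`, while `θ(r) → 0` as `r ↑ 1`.  With `A = {3π/2 ≤ t < 2π}` the function `f = h 1_A`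
lies in `H^∞ + θ L^∞` and `‖f‖_∞ ≤ e^{-π/4} < 1`.  If `1/(1-f) = H + θ g` with `H ∈ H^∞`,
`g ∈ L^∞`, then `F = (1-h)H - 1` satisfies `|F| ≤ C|θ|` on the circle, hence (as `θ` is outer)
in the disc; but `F(r) = -1` whenever `r = 1 - 2e^{-2πn}`, because `h(r) = 1` there,
and `θ(r) → 0`: a contradiction.
-/

open MeasureTheory Filter Topology Complex Metric Set

namespace Pool.Agent.Results.MP_c4e2dd_an.NotGDAlgebra

/-! ## Definitions used in the statement -/

/-- Normalised arc length measure on the unit circle, viewed as a measure on `ℂ`: the image of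
`(2π)⁻¹ · Lebesgue` on `(0, 2π]` under `t ↦ e^{it}`. -/
noncomputable def circ : Measure ℂ :=
  ENNReal.ofReal (2 * Real.pi)⁻¹ • (volume.restrict (Ioc 0 (2 * Real.pi))).map (circleMap 0 1)

/-- `L^∞` of the unit circle with respect to normalised arc length: Mathlib's space `Lp` with
exponent `⊤` (classes of a.e. equal essentially bounded functions), whose norm is the essential
supremum norm. -/
abbrev LInfty : Type := Lp ℂ ⊤ circ

/-- `F` is bounded and analytic in the open unit disc. -/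
def IsBoundedAnalytic (F : ℂ → ℂ) : Prop :=
  DifferentiableOn ℂ F (ball 0 1) ∧ ∃ M : ℝ, ∀ z ∈ ball (0 : ℂ) 1, ‖F z‖ ≤ M

/-- `f` is the boundary function of `F`: for almost every point `ζ` of the unit circle the radial
limit of `F` at `ζ` exists and equals `f ζ`. -/
def HasBoundaryFunction (F : ℂ → ℂ) (f : LInfty) : Prop :=
  ∀ᵐ ζ ∂circ, Tendsto (fun r : ℝ => F (r * ζ)) (𝓝[<] 1) (𝓝 (f ζ))

/-- `H^∞`, as a subset of `L^∞`: the boundary functions of the bounded analytic functions in the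
unit disc. -/
def HInfty : Set LInfty :=
  {f | ∃ F : ℂ → ℂ, IsBoundedAnalytic F ∧ HasBoundaryFunction F f}

/-- `θ` is (the boundary function of) a bounded outer function: `θ` is the boundary function of a
bounded analytic function `F`, `log |θ|` is integrable on the circle, and for some unimodular
constant `c`, `F z = c * exp (∫ (ζ + z) / (ζ - z) * log |θ ζ| dm(ζ))` for all `|z| < 1`. -/
def IsBoundedOuter (θ : LInfty) : Prop :=
  ∃ F : ℂ → ℂ, IsBoundedAnalytic F ∧ HasBoundaryFunction F θ ∧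
    Integrable (fun ζ => Real.log ‖θ ζ‖) circ ∧
    ∃ c : ℂ, ‖c‖ = 1 ∧ ∀ z ∈ ball (0 : ℂ) 1,
      F z = c * Complex.exp (∫ ζ, (ζ + z) / (ζ - z) * (Real.log ‖θ ζ‖ : ℂ) ∂circ)

/-- The set `H^∞ + θ L^∞ = {h + θ g : h ∈ H^∞, g ∈ L^∞}`. -/
def HInftyPlus (θ : LInfty) : Set LInfty :=
  {f | ∃ h ∈ HInfty, ∃ g : LInfty, ∀ᵐ ζ ∂circ, f ζ = h ζ + θ ζ * g ζ}

/-! ## The measure `circ` -/



lemma measurable_cm : Measurable (circleMap 0 1) := (continuous_circleMap 0 1).measurable

lemma ofReal_ne : ENNReal.ofReal (2 * Real.pi)⁻¹ ≠ 0 := by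
  have := Real.pi_pos
  simp only [ne_eq, ENNReal.ofReal_eq_zero, not_le]
  positivity

lemma ae_circ_iff {P : ℂ → Prop} (hP : MeasurableSet {z | P z}) :
    (∀ᵐ ζ ∂circ, P ζ) ↔ ∀ᵐ t ∂(volume.restrict (Ioc 0 (2 * Real.pi))), P (circleMap 0 1 t) := by
  unfold circ
  rw [Measure.ae_ennreal_smul_measure_iff ofReal_ne, ae_map_iff measurable_cm.aemeasurable hP]

lemma ae_of_ae_circ {P : ℂ → Prop} (h : ∀ᵐ ζ ∂circ, P ζ) :
    ∀ᵐ t ∂(volume.restrict (Ioc 0 (2 * Real.pi))), P (circleMap 0 1 t) := by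
  unfold circ at h
  rw [Measure.ae_ennreal_smul_measure_iff ofReal_ne] at h
  exact ae_of_ae_map measurable_cm.aemeasurable h

instance : IsProbabilityMeasure circ := by
  constructor
  unfold circ
  have := Real.pi_pos
  rw [Measure.smul_apply, Measure.map_apply measurable_cm MeasurableSet.univ]
  simp only [preimage_univ, MeasurableSet.univ, Measure.restrict_apply, univ_inter,
    Real.volume_Ioc, sub_zero, smul_eq_mul]
  rw [← ENNReal.ofReal_mul (by positivity)]
  rw [inv_mul_cancel₀ (by positivity)]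
  simp

lemma integral_circ (g : ℂ → ℂ) (hg : AEStronglyMeasurable g circ) :
    ∫ ζ, g ζ ∂circ = Real.circleAverage g 0 1 := by
  have := Real.pi_pos
  unfold circ Real.circleAverage
  rw [integral_smul_measure, integral_map measurable_cm.aemeasurable,
    intervalIntegral.integral_of_le (by positivity), ENNReal.toReal_ofReal (by positivity)]
  unfold circ at hg
  have h2 := (Measure.absolutelyContinuous_smul (μ := (volume.restrict (Ioc 0 (2 * Real.pi))).map (circleMap 0 1)) ofReal_ne)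
  exact hg.mono_ac h2

/-- almost every point of `circ` is a point of the circle other than `1` -/
lemma ae_circ_good : ∀ᵐ ζ ∂circ, ‖ζ‖ = 1 ∧ ζ ≠ 1 := by
  have hms : MeasurableSet {z : ℂ | ‖z‖ = 1 ∧ z ≠ 1} := by
    apply MeasurableSet.inter
    · exact measurableSet_eq_fun measurable_norm measurable_const
    · exact (measurableSet_singleton (1:ℂ)).compl
  rw [ae_circ_iff hms]
  have h0 : ∀ᵐ t : ℝ, t ≠ 2 * Real.pi := by
    simp [ae_iff, measure_singleton]
  rw [ae_restrict_iff' measurableSet_Ioc]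
  filter_upwards [h0] with t ht hmem
  refine ⟨by simp [circleMap], ?_⟩
  intro h1
  simp only [circleMap, ofReal_one, one_mul, zero_add] at h1
  rw [Complex.exp_eq_one_iff] at h1
  obtain ⟨n, hn⟩ := h1
  have hpi := Real.pi_pos
  have h2 : (t : ℂ) = n * (2 * Real.pi) := by
    have hI : (I : ℂ) ≠ 0 := I_ne_zero
    apply mul_right_cancel₀ hI
    rw [hn]; ring
  have h3 : t = n * (2 * Real.pi) := by exact_mod_cast h2
  obtain ⟨h4, h5⟩ := hmem
  have h6 : (0:ℝ) < n := by
    by_contra hcon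
    push Not at hcon
    nlinarith
  have h7 : (n:ℝ) < 2 := by
    by_contra hcon
    push Not at hcon
    nlinarith
  have h8 : n = 1 := by
    have : (0:ℤ) < n := by exact_mod_cast h6
    have : n < 2 := by exact_mod_cast h7
    omega
  rw [h8] at h3
  simp at h3
  exact ht h3

/-- Poisson kernel -/
lemma kernel_nonneg {z ζ : ℂ} (hz : ‖z‖ < 1) (hζ : ‖ζ‖ = 1) :
    0 ≤ ((ζ + z) / (ζ - z)).re := by
  have h := congrFun (poissonKernel_eq_re_herglotzRieszKernel (c := 0) (w := z)) ζ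
  simp only [Function.comp_apply, herglotzRieszKernel, poissonKernel, sub_zero] at h
  rw [← h, hζ]
  apply div_nonneg
  · nlinarith [norm_nonneg z]
  · positivity

lemma kernel_continuous {z : ℂ} (hz : ‖z‖ < 1) :
    Continuous (fun t : ℝ => (circleMap 0 1 t + z) / (circleMap 0 1 t - z)) := by
  have hc : Continuous (circleMap 0 1) := continuous_circleMap 0 1
  apply Continuous.div (by fun_prop) (by fun_prop)
  intro t h
  rw [sub_eq_zero] at h
  rw [← h] at hz
  simp [circleMap] at hz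

/-- Poisson representation of a bounded analytic function -/
lemma poisson_rep {B : ℂ → ℂ} {b : ℝ → ℂ} {M : ℝ} (hB : DifferentiableOn ℂ B (ball 0 1))
    (hM : ∀ z ∈ ball (0:ℂ) 1, ‖B z‖ ≤ M)
    (hb : ∀ᵐ t ∂(volume.restrict (Ioc 0 (2 * Real.pi))),
      Tendsto (fun r : ℝ => B (r * circleMap 0 1 t)) (𝓝[<] 1) (𝓝 (b t)))
    {z : ℂ} (hz : z ∈ ball (0:ℂ) 1) :
    B z = ((2 * Real.pi)⁻¹ : ℝ) • ∫ t in Ioc 0 (2 * Real.pi),
      (((circleMap 0 1 t + z) / (circleMap 0 1 t - z)).re • b t) := by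
  have hpi := Real.pi_pos
  have hz1 : ‖z‖ < 1 := by simpa using hz
  have hBc : ContinuousOn B (ball 0 1) := hB.continuousOn
  -- radii
  set r : ℕ → ℝ := fun n => 1 - 1 / ((n:ℝ) + 2) with hr
  have hr0 : ∀ n, 0 < r n := by
    intro n
    have : (1:ℝ) / ((n:ℝ) + 2) ≤ 1 / 2 := by
      apply one_div_le_one_div_of_le (by norm_num)
      have : (0:ℝ) ≤ n := Nat.cast_nonneg n
      linarith
    simp only [hr]; linarith
  have hr1 : ∀ n, r n < 1 := by
    intro n
    have : 0 < (1:ℝ) / ((n:ℝ) + 2) := by positivity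
    simp only [hr]; linarith
  have hrt : Tendsto r atTop (𝓝[<] 1) := by
    rw [tendsto_nhdsWithin_iff]
    refine ⟨?_, Eventually.of_forall hr1⟩
    have h1 : Tendsto (fun n : ℕ => 1 / ((n:ℝ) + 2)) atTop (𝓝 0) := by
      have h2 := tendsto_one_div_add_atTop_nhds_zero_nat (𝕜 := ℝ)
      have h3 := h2.comp (tendsto_add_atTop_nat 1)
      refine h3.congr ?_
      intro n
      simp only [Function.comp_apply, Nat.cast_add, Nat.cast_one]
      ring_nf
    have h2 := h1.const_sub (1:ℝ)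
    rw [sub_zero] at h2
    exact h2
  -- Poisson formula for each n
  have hpf : ∀ n, B (r n * z) = ((2 * Real.pi)⁻¹ : ℝ) • ∫ t in Ioc 0 (2 * Real.pi),
      (((circleMap 0 1 t + z) / (circleMap 0 1 t - z)).re • B (r n * circleMap 0 1 t)) := by
    intro n
    have hd : DiffContOnCl ℂ (fun w => B (r n * w)) (ball 0 1) := by
      have h1 : DifferentiableOn ℂ (fun w => B (r n * w)) (closure (ball 0 1)) := by
        apply hB.comp (by fun_prop)
        intro w hw
        have hw1 : ‖w‖ ≤ 1 := by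
          have := closure_ball_subset_closedBall hw
          simpa using this
        simp only [mem_ball, dist_zero_right, norm_mul, norm_real, Real.norm_eq_abs,
          abs_of_pos (hr0 n)]
        nlinarith [hr1 n, hr0 n, norm_nonneg w]
      exact h1.diffContOnCl
    have h2 := hd.circleAverage_re_herglotzRieszKernel_smul' hz
    rw [Real.circleAverage, intervalIntegral.integral_of_le (by positivity)] at h2
    simp only [sub_zero] at h2
    rw [← h2]
  -- limits
  have hlim1 : Tendsto (fun n => B (r n * z)) atTop (𝓝 (B z)) := by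
    have h1 : ContinuousAt B z := hBc.continuousAt (isOpen_ball.mem_nhds hz)
    have h2 : Tendsto (fun n => ((r n : ℝ) : ℂ) * z) atTop (𝓝 (1 * z)) := by
      apply Tendsto.mul_const
      have : Tendsto r atTop (𝓝 1) := hrt.mono_right nhdsWithin_le_nhds
      exact_mod_cast (continuous_ofReal.tendsto 1).comp this
    rw [one_mul] at h2
    exact h1.tendsto.comp h2
  obtain ⟨K, hK⟩ : ∃ K, ∀ t ∈ Icc 0 (2 * Real.pi),
      ‖(circleMap 0 1 t + z) / (circleMap 0 1 t - z)‖ ≤ K :=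
    isCompact_Icc.exists_bound_of_continuousOn (kernel_continuous hz1).continuousOn
  have hlim2 : Tendsto (fun n => ∫ t in Ioc 0 (2 * Real.pi),
      (((circleMap 0 1 t + z) / (circleMap 0 1 t - z)).re • B (r n * circleMap 0 1 t))) atTop
      (𝓝 (∫ t in Ioc 0 (2 * Real.pi),
      (((circleMap 0 1 t + z) / (circleMap 0 1 t - z)).re • b t))) := by
    apply tendsto_integral_of_dominated_convergence (bound := fun _ => K * M)
    · intro n
      apply Continuous.aestronglyMeasurable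
      refine Continuous.smul (f := fun a => ((circleMap 0 1 a + z) / (circleMap 0 1 a - z)).re)
        (g := fun a => B (↑(r n) * circleMap 0 1 a)) ?_ ?_
      · exact continuous_re.comp (kernel_continuous hz1)
      · have hc : Continuous (circleMap 0 1) := continuous_circleMap 0 1
        have h1 : ContinuousOn (fun t : ℝ => B (r n * circleMap 0 1 t)) univ := by
          apply hBc.comp (by fun_prop)
          intro t _
          simp only [mem_ball, dist_zero_right, norm_mul, norm_real, Real.norm_eq_abs,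
            abs_of_pos (hr0 n), norm_circleMap_zero, abs_one, mul_one]
          exact hr1 n
        exact continuousOn_univ.mp h1
    · exact integrable_const _
    · intro n
      rw [ae_restrict_iff' measurableSet_Ioc]
      apply Eventually.of_forall
      intro t ht
      rw [norm_smul]
      have h1 := hK t ⟨ht.1.le, ht.2⟩
      have h2 : ‖((circleMap 0 1 t + z) / (circleMap 0 1 t - z)).re‖ ≤ K :=
        (abs_re_le_norm _).trans h1
      have h3 : ‖B (r n * circleMap 0 1 t)‖ ≤ M := by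
        apply hM
        simp only [mem_ball, dist_zero_right, norm_mul, norm_real, Real.norm_eq_abs,
            abs_of_pos (hr0 n), norm_circleMap_zero, abs_one, mul_one]
        exact hr1 n
      exact mul_le_mul h2 h3 (norm_nonneg _) ((norm_nonneg _).trans h2)
    · filter_upwards [hb] with t ht
      apply Tendsto.const_smul
      exact ht.comp hrt
  have hlim3 := hlim2.const_smul ((2 * Real.pi)⁻¹ : ℝ)
  exact tendsto_nhds_unique hlim1 (hlim3.congr (fun n => (hpf n).symm))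

/-- Maximum principle for bounded analytic functions with radial limits. -/
lemma max_principle {B : ℂ → ℂ} {b : ℝ → ℂ} {M C : ℝ} (hB : DifferentiableOn ℂ B (ball 0 1))
    (hM : ∀ z ∈ ball (0:ℂ) 1, ‖B z‖ ≤ M)
    (hb : ∀ᵐ t ∂(volume.restrict (Ioc 0 (2 * Real.pi))),
      Tendsto (fun r : ℝ => B (r * circleMap 0 1 t)) (𝓝[<] 1) (𝓝 (b t)))
    (hC : ∀ᵐ t ∂(volume.restrict (Ioc 0 (2 * Real.pi))), ‖b t‖ ≤ C)
    {z : ℂ} (hz : z ∈ ball (0:ℂ) 1) :
    ‖B z‖ ≤ C := by
  have hpi := Real.pi_pos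
  have hz1 : ‖z‖ < 1 := by simpa using hz
  rw [poisson_rep hB hM hb hz, norm_smul, Real.norm_eq_abs, abs_of_pos (by positivity)]
  have hone : (1 : ℂ) = ((2 * Real.pi)⁻¹ : ℝ) • ∫ t in Ioc 0 (2 * Real.pi),
      (((circleMap 0 1 t + z) / (circleMap 0 1 t - z)).re • (1:ℂ)) := by
    exact poisson_rep (B := fun _ => 1) (b := fun _ => 1) (M := 1) (by fun_prop) (by simp)
      (by simp) hz
  have hre : Integrable (fun t => ((circleMap 0 1 t + z) / (circleMap 0 1 t - z)).re)
      (volume.restrict (Ioc 0 (2 * Real.pi))) := by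
    have h1 : Continuous (fun t : ℝ => ((circleMap 0 1 t + z) / (circleMap 0 1 t - z)).re) :=
      continuous_re.comp (kernel_continuous hz1)
    exact (h1.continuousOn.integrableOn_compact isCompact_Icc).mono_set Ioc_subset_Icc_self
  have hone' : (1 : ℝ) = ((2 * Real.pi)⁻¹ : ℝ) * ∫ t in Ioc 0 (2 * Real.pi),
      ((circleMap 0 1 t + z) / (circleMap 0 1 t - z)).re := by
    have h1 := congrArg Complex.re hone
    rw [Complex.real_smul, Complex.re_ofReal_mul] at h1
    have h2 : (∫ t in Ioc 0 (2 * Real.pi),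
      (((circleMap 0 1 t + z) / (circleMap 0 1 t - z)).re • (1:ℂ))) =
      ((∫ t in Ioc 0 (2 * Real.pi),
      ((circleMap 0 1 t + z) / (circleMap 0 1 t - z)).re : ℝ) : ℂ) := by
      rw [← integral_complex_ofReal]
      congr 1
      ext t
      simp
    rw [h2] at h1
    simpa using h1
  have h3 : ‖∫ t in Ioc 0 (2 * Real.pi),
      (((circleMap 0 1 t + z) / (circleMap 0 1 t - z)).re • b t)‖ ≤
      ∫ t in Ioc 0 (2 * Real.pi), ((circleMap 0 1 t + z) / (circleMap 0 1 t - z)).re * C := by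
    apply norm_integral_le_of_norm_le (hre.mul_const C)
    filter_upwards [hC] with t ht
    rw [norm_smul, Real.norm_eq_abs, abs_of_nonneg (kernel_nonneg hz1 (by simp [circleMap]))]
    exact mul_le_mul_of_nonneg_left ht (kernel_nonneg hz1 (by simp [circleMap]))
  rw [integral_mul_const] at h3
  calc (2 * Real.pi)⁻¹ * ‖∫ t in Ioc 0 (2 * Real.pi),
      (((circleMap 0 1 t + z) / (circleMap 0 1 t - z)).re • b t)‖
      ≤ (2 * Real.pi)⁻¹ * ((∫ t in Ioc 0 (2 * Real.pi),
        ((circleMap 0 1 t + z) / (circleMap 0 1 t - z)).re) * C) := by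
        apply mul_le_mul_of_nonneg_left h3 (by positivity)
    _ = ((2 * Real.pi)⁻¹ * (∫ t in Ioc 0 (2 * Real.pi),
        ((circleMap 0 1 t + z) / (circleMap 0 1 t - z)).re)) * C := by ring
    _ = C := by rw [← hone', one_mul]



/-! ## The explicit functions -/

/-- `L z = log ((1 - z) / 2)` -/
noncomputable def L (z : ℂ) : ℂ := Complex.log ((1 - z) / 2)

/-- `G = L/2 - i L²/(2π)`, so that `Θ = exp G`. -/
noncomputable def G (z : ℂ) : ℂ := L z / 2 - I * (L z) ^ 2 / (2 * Real.pi)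

/-- the outer function of the counterexample -/
noncomputable def Θ (z : ℂ) : ℂ := Complex.exp (G z)

/-- the bounded analytic function `h = exp (i L)` -/
noncomputable def Hf (z : ℂ) : ℂ := Complex.exp (I * L z)

lemma re_pos {z : ℂ} (hz : ‖z‖ ≤ 1) (h1 : z ≠ 1) : 0 < ((1 - z) / 2).re := by
  have hre : z.re < 1 := by
    by_contra hcon
    push Not at hcon
    have h2 : z.re ≤ ‖z‖ := re_le_norm z
    have h3 : z.re = 1 := le_antisymm (h2.trans hz) hcon
    have h4 : ‖z‖ ^ 2 = z.re ^ 2 + z.im ^ 2 := by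
      rw [← normSq_eq_norm_sq, normSq_apply]; ring
    have h5 : z.im = 0 := by
      have : ‖z‖ ^ 2 ≤ 1 := by nlinarith [norm_nonneg z]
      nlinarith [sq_nonneg z.im]
    apply h1
    apply Complex.ext <;> simp [h3, h5]
  simp only [div_ofNat_re, sub_re, one_re]
  linarith

lemma ne_zero {z : ℂ} (hz : ‖z‖ ≤ 1) (h1 : z ≠ 1) : (1 - z) / 2 ≠ 0 := by
  intro h
  have := re_pos hz h1
  rw [h] at this
  simp at this

lemma arg_lt {z : ℂ} (hz : ‖z‖ ≤ 1) (h1 : z ≠ 1) : |arg ((1 - z) / 2)| < Real.pi / 2 :=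
  abs_arg_lt_pi_div_two_iff.mpr (Or.inl (re_pos hz h1))

lemma norm_le_one {z : ℂ} (hz : ‖z‖ ≤ 1) : ‖(1 - z) / 2‖ ≤ 1 := by
  rw [norm_div]
  have : ‖1 - z‖ ≤ 2 := by
    calc ‖1 - z‖ ≤ ‖(1:ℂ)‖ + ‖z‖ := norm_sub_le _ _
      _ ≤ 2 := by simp; linarith
  simp only [norm_ofNat]
  linarith

lemma L_re (z : ℂ) : (L z).re = Real.log ‖(1 - z) / 2‖ := by
  rw [L, log_re]

lemma L_im (z : ℂ) : (L z).im = arg ((1 - z) / 2) := by
  rw [L, log_im]

lemma L_re_nonpos {z : ℂ} (hz : ‖z‖ ≤ 1) : (L z).re ≤ 0 := by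
  rw [L_re]
  exact Real.log_nonpos (norm_nonneg _) (norm_le_one hz)

lemma G_re (z : ℂ) : (G z).re = (L z).re * (1 / 2 + (L z).im / Real.pi) := by
  have hpi := Real.pi_pos
  have h1 : G z = L z / 2 - ((1 / (2 * Real.pi) : ℝ) : ℂ) * (I * (L z) ^ 2) := by
    unfold G
    push_cast
    field_simp
  rw [h1, sub_re, re_ofReal_mul]
  have h2 : (I * (L z) ^ 2).re = - (2 * (L z).re * (L z).im) := by
    simp [pow_two]
    ring
  rw [h2]
  simp only [div_ofNat_re]
  field_simp
  ring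

lemma exponent_mem {z : ℂ} (hz : ‖z‖ ≤ 1) (h1 : z ≠ 1) :
    0 < 1 / 2 + (L z).im / Real.pi ∧ 1 / 2 + (L z).im / Real.pi < 1 := by
  have hpi := Real.pi_pos
  have h := abs_lt.mp (arg_lt hz h1)
  rw [L_im]
  constructor
  · have : -(1/2) < arg ((1 - z) / 2) / Real.pi := by
      rw [lt_div_iff₀ hpi]; linarith [h.1]
    linarith
  · have : arg ((1 - z) / 2) / Real.pi < 1/2 := by
      rw [div_lt_iff₀ hpi]; linarith [h.2]
    linarith

lemma G_re_nonpos {z : ℂ} (hz : ‖z‖ ≤ 1) (h1 : z ≠ 1) : (G z).re ≤ 0 := by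
  rw [G_re]
  exact mul_nonpos_of_nonpos_of_nonneg (L_re_nonpos hz) (exponent_mem hz h1).1.le

lemma L_re_le_G_re {z : ℂ} (hz : ‖z‖ ≤ 1) (h1 : z ≠ 1) : (L z).re ≤ (G z).re := by
  rw [G_re]
  nlinarith [L_re_nonpos hz, (exponent_mem hz h1).2]

lemma norm_Θ (z : ℂ) : ‖Θ z‖ = Real.exp (G z).re := by
  rw [Θ, Complex.norm_exp]

lemma norm_Θ_le_one {z : ℂ} (hz : ‖z‖ ≤ 1) (h1 : z ≠ 1) : ‖Θ z‖ ≤ 1 := by
  rw [norm_Θ, Real.exp_le_one_iff]
  exact G_re_nonpos hz h1

lemma le_norm_Θ {z : ℂ} (hz : ‖z‖ ≤ 1) (h1 : z ≠ 1) : ‖1 - z‖ / 2 ≤ ‖Θ z‖ := by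
  rw [norm_Θ]
  have h2 : ‖1 - z‖ / 2 = Real.exp (L z).re := by
    rw [L_re, Real.exp_log (norm_pos_iff.mpr (ne_zero hz h1))]
    simp
  rw [h2]
  exact Real.exp_le_exp.mpr (L_re_le_G_re hz h1)

lemma norm_Hf (z : ℂ) : ‖Hf z‖ = Real.exp (-arg ((1 - z) / 2)) := by
  rw [Hf, Complex.norm_exp]
  congr 1
  simp [L_im]

lemma norm_Hf_le {z : ℂ} (hz : ‖z‖ ≤ 1) (h1 : z ≠ 1) : ‖Hf z‖ ≤ Real.exp (Real.pi / 2) := by
  rw [norm_Hf]
  apply Real.exp_le_exp.mpr
  have h := abs_lt.mp (arg_lt hz h1)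
  linarith [h.1]

/-- on the circle, `cos (arg w) = ‖w‖` where `w = (1 - ζ)/2`. -/
lemma cos_arg_eq {ζ : ℂ} (hζ : ‖ζ‖ = 1) (h1 : ζ ≠ 1) :
    Real.cos (arg ((1 - ζ) / 2)) = ‖(1 - ζ) / 2‖ := by
  have hne := ne_zero hζ.le h1
  have hpos : 0 < ‖(1 - ζ) / 2‖ := norm_pos_iff.mpr hne
  rw [cos_arg hne, div_eq_iff hpos.ne']
  have h2 : ‖(1 - ζ) / 2‖ * ‖(1 - ζ) / 2‖ = normSq ((1 - ζ) / 2) := by
    rw [normSq_eq_norm_sq]; ring
  have h3 : normSq ζ = 1 := by rw [normSq_eq_norm_sq, hζ]; norm_num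
  rw [normSq_apply] at h3
  rw [h2, normSq_apply]
  simp only [div_ofNat_re, div_ofNat_im, sub_re, one_re, sub_im, one_im]
  nlinarith

/-- lower bound of `Θ` on the part of the circle where `arg w < π/4`. -/
lemma half_le_norm_Θ {ζ : ℂ} (hζ : ‖ζ‖ = 1) (h1 : ζ ≠ 1)
    (ha : arg ((1 - ζ) / 2) < Real.pi / 4) : 1 / 2 ≤ ‖Θ ζ‖ := by
  have hpi := Real.pi_pos
  have hcos := cos_arg_eq hζ h1
  have habs := abs_lt.mp (arg_lt hζ.le h1)
  have hpos : 0 < ‖(1 - ζ) / 2‖ := norm_pos_iff.mpr (ne_zero hζ.le h1)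
  rcases le_or_gt 0 (arg ((1 - ζ) / 2)) with h0 | h0
  · have h2 : ‖1 - ζ‖ / 2 = ‖(1 - ζ) / 2‖ := by simp
    refine le_trans ?_ (le_norm_Θ hζ.le h1)
    rw [h2, ← hcos]
    calc (1:ℝ) / 2 ≤ √2 / 2 := by
          have : (1:ℝ) ≤ √2 := by
            rw [Real.le_sqrt (by norm_num)] <;> norm_num
          linarith
      _ = Real.cos (Real.pi / 4) := Real.cos_pi_div_four.symm
      _ ≤ Real.cos (arg ((1 - ζ) / 2)) :=
          Real.cos_le_cos_of_nonneg_of_le_pi h0 (by linarith) ha.le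
  · rw [norm_Θ, G_re, L_re, L_im]
    set a := arg ((1 - ζ) / 2) with hadef
    set s := a + Real.pi / 2 with hs
    have hs0 : 0 < s := by rw [hs]; linarith [habs.1]
    have hs1 : s ≤ Real.pi / 2 := by rw [hs]; linarith
    have hsin : Real.sin s = ‖(1 - ζ) / 2‖ := by
      rw [hs, Real.sin_add_pi_div_two, hcos]
    have hlow : 2 / Real.pi * s ≤ ‖(1 - ζ) / 2‖ := by
      rw [← hsin]
      exact Real.mul_le_sin hs0.le hs1
    have hlog : 1 - 1 / ‖(1 - ζ) / 2‖ ≤ Real.log ‖(1 - ζ) / 2‖ := by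
      have := Real.one_sub_inv_le_log_of_pos hpos
      simpa using this
    have hinv : 1 / ‖(1 - ζ) / 2‖ ≤ Real.pi / (2 * s) := by
      rw [div_le_div_iff₀ hpos (by positivity)]
      have : 2 / Real.pi * s * Real.pi ≤ ‖(1 - ζ) / 2‖ * Real.pi :=
        mul_le_mul_of_nonneg_right hlow hpi.le
      have h5 : 2 / Real.pi * s * Real.pi = 2 * s := by field_simp
      linarith
    have hexp : 1 / 2 + a / Real.pi = s / Real.pi := by
      rw [hs]; field_simp; ring
    rw [hexp]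
    have hkey : -(1/2) ≤ Real.log ‖(1 - ζ) / 2‖ * (s / Real.pi) := by
      have h6 : 1 - Real.pi / (2 * s) ≤ Real.log ‖(1 - ζ) / 2‖ := by linarith
      have h7 : (1 - Real.pi / (2 * s)) * (s / Real.pi) ≤
          Real.log ‖(1 - ζ) / 2‖ * (s / Real.pi) :=
        mul_le_mul_of_nonneg_right h6 (by positivity)
      have h8 : (1 - Real.pi / (2 * s)) * (s / Real.pi) = s / Real.pi - 1 / 2 := by
        field_simp
      have h9 : 0 < s / Real.pi := by positivity
      linarith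
    have h10 : (1:ℝ) / 2 ≤ Real.exp (-(1/2)) := by
      have := Real.add_one_le_exp (-(1/2) : ℝ)
      linarith
    exact h10.trans (Real.exp_le_exp.mpr hkey)

lemma norm_Hf_le_of_ge {ζ : ℂ} (ha : Real.pi / 4 ≤ arg ((1 - ζ) / 2)) :
    ‖Hf ζ‖ ≤ Real.exp (-(Real.pi / 4)) := by
  rw [norm_Hf]
  apply Real.exp_le_exp.mpr
  linarith

/-- the exceptional radii -/
noncomputable def rr (n : ℕ) : ℝ := 1 - 2 * Real.exp (-(2 * Real.pi * n))

lemma L_rr (n : ℕ) : L (rr n) = -(2 * Real.pi * n) := by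
  unfold L rr
  have h1 : (1 - ((1 - 2 * Real.exp (-(2 * Real.pi * n)) : ℝ) : ℂ)) / 2 =
      ((Real.exp (-(2 * Real.pi * n)) : ℝ) : ℂ) := by
    push_cast; ring
  rw [h1, ← ofReal_log (Real.exp_pos _).le, Real.log_exp]
  push_cast; ring

lemma Hf_rr (n : ℕ) : Hf (rr n) = 1 := by
  unfold Hf
  rw [L_rr]
  have h1 : I * -(2 * Real.pi * n) = ((-n : ℤ) : ℂ) * (2 * Real.pi * I) := by
    push_cast; ring
  rw [h1, exp_int_mul_two_pi_mul_I]

lemma norm_Θ_rr (n : ℕ) : ‖Θ (rr n)‖ = Real.exp (-(Real.pi * n)) := by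
  rw [norm_Θ, G_re, L_rr]
  congr 1
  have h1 : (-(2 * Real.pi * n) : ℂ) = ((-(2 * Real.pi * n) : ℝ) : ℂ) := by push_cast; ring
  rw [h1, ofReal_re, ofReal_im]
  ring

lemma rr_mem (n : ℕ) (hn : 1 ≤ n) : ((rr n : ℝ) : ℂ) ∈ ball (0:ℂ) 1 := by
  have hpi := Real.pi_gt_three
  have h1 : Real.exp (-(2 * Real.pi * n)) < 1 / 2 := by
    have h2 : Real.exp (-(2 * Real.pi * n)) ≤ Real.exp (-1) := by
      apply Real.exp_le_exp.mpr
      have : (1:ℝ) ≤ n := by exact_mod_cast hn
      nlinarith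
    have h3 : Real.exp (-1) < 1 / 2 := by
      rw [Real.exp_neg]
      have := Real.exp_one_gt_d9
      rw [inv_lt_comm₀ (Real.exp_pos 1) (by norm_num)]
      norm_num
      linarith
    linarith
  have h0 := Real.exp_pos (-(2 * Real.pi * n))
  simp only [mem_ball, dist_zero_right, norm_real, Real.norm_eq_abs, rr]
  rw [abs_lt]
  constructor <;> linarith


lemma slit {z : ℂ} (hz : ‖z‖ ≤ 1) (h1 : z ≠ 1) : (1 - z) / 2 ∈ slitPlane :=
  Or.inl (re_pos hz h1)

lemma diff_L {z : ℂ} (hz : ‖z‖ ≤ 1) (h1 : z ≠ 1) : DifferentiableAt ℂ L z := by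
  have h2 : DifferentiableAt ℂ (fun z : ℂ => (1 - z) / 2) z := by fun_prop
  exact h2.clog (slit hz h1)

lemma diff_G {z : ℂ} (hz : ‖z‖ ≤ 1) (h1 : z ≠ 1) : DifferentiableAt ℂ G z := by
  unfold G
  have := diff_L hz h1
  fun_prop

lemma diff_Θ {z : ℂ} (hz : ‖z‖ ≤ 1) (h1 : z ≠ 1) : DifferentiableAt ℂ Θ z := by
  unfold Θ
  have := diff_G hz h1
  fun_prop

lemma diff_Hf {z : ℂ} (hz : ‖z‖ ≤ 1) (h1 : z ≠ 1) : DifferentiableAt ℂ Hf z := by
  unfold Hf
  have := diff_L hz h1
  fun_prop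

lemma ne_one_of_mem_ball {z : ℂ} (hz : z ∈ ball (0:ℂ) 1) : ‖z‖ ≤ 1 ∧ z ≠ 1 := by
  have h : ‖z‖ < 1 := by simpa using hz
  refine ⟨h.le, ?_⟩
  rintro rfl
  simp at h

lemma Θ_ne_zero (z : ℂ) : Θ z ≠ 0 := Complex.exp_ne_zero _

lemma radial {F : ℂ → ℂ} {ζ : ℂ} (hF : ContinuousAt F ζ) :
    Tendsto (fun r : ℝ => F (r * ζ)) (𝓝[<] 1) (𝓝 (F ζ)) := by
  have h1 : Tendsto (fun r : ℝ => (r : ℂ) * ζ) (𝓝[<] 1) (𝓝 ζ) := by
    have h2 : Continuous (fun r : ℝ => (r : ℂ) * ζ) := by fun_prop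
    have h3 := h2.tendsto 1
    simp only [ofReal_one, one_mul] at h3
    exact h3.mono_left nhdsWithin_le_nhds
  exact hF.tendsto.comp h1

/-- The comparison principle: `Θ` dominates analytically every bounded analytic function
that it dominates on the circle. -/
lemma compare {F : ℂ → ℂ} {f : ℝ → ℂ} {M C : ℝ} (hF : DifferentiableOn ℂ F (ball 0 1))
    (hM : ∀ z ∈ ball (0:ℂ) 1, ‖F z‖ ≤ M)
    (hf : ∀ᵐ t ∂(volume.restrict (Ioc 0 (2 * Real.pi))),
      Tendsto (fun r : ℝ => F (r * circleMap 0 1 t)) (𝓝[<] 1) (𝓝 (f t)))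
    (hC : ∀ᵐ t ∂(volume.restrict (Ioc 0 (2 * Real.pi))), ‖f t‖ ≤ C * ‖Θ (circleMap 0 1 t)‖)
    {z : ℂ} (hz : z ∈ ball (0:ℂ) 1) :
    ‖F z‖ ≤ C * ‖Θ z‖ := by
  have hz1 : ‖z‖ < 1 := by simpa using hz
  obtain ⟨hzle, hzne⟩ := ne_one_of_mem_ball hz
  have hgood := ae_of_ae_circ ae_circ_good
  have hC0 : ∃ t, ‖circleMap 0 1 t‖ = 1 ∧ ‖f t‖ ≤ C * ‖Θ (circleMap 0 1 t)‖ := by
    have hne : (ae (volume.restrict (Ioc 0 (2 * Real.pi)))).NeBot := by
      rw [ae_neBot]
      intro h
      have h2 := congrArg (fun μ => μ (Ioc 0 (2 * Real.pi))) h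
      simp at h2
      have := Real.pi_pos
      linarith
    obtain ⟨t, h1, h2⟩ := (hgood.and hC).exists
    exact ⟨t, h1.1, h2⟩
  have hCnn : 0 ≤ C := by
    obtain ⟨t, -, h2⟩ := hC0
    by_contra hcon
    push Not at hcon
    have h3 : 0 < ‖Θ (circleMap 0 1 t)‖ := norm_pos_iff.mpr (Θ_ne_zero _)
    have h4 := norm_nonneg (f t)
    nlinarith
  -- the auxiliary function
  have key : ∀ η : ℝ, 0 < η → ‖F z‖ * ‖1 - z‖ ≤ C * ‖Θ z‖ * ‖1 + η - z‖ := by
    intro η hη
    have hden : ∀ w : ℂ, ‖w‖ ≤ 1 → (1 + η - w : ℂ) ≠ 0 := by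
      intro w hw h
      have h1 : ((1 + η - w : ℂ)).re = 0 := by rw [h]; simp
      have h2 : w.re ≤ 1 := (re_le_norm w).trans hw
      simp at h1
      linarith
    have hden_eta : ∀ w : ℂ, ‖w‖ ≤ 1 → η ≤ ‖(1 + η - w : ℂ)‖ := by
      intro w hw
      have h2 : w.re ≤ 1 := (re_le_norm w).trans hw
      have h3 : ((1 + η - w : ℂ)).re ≤ ‖(1 + η - w : ℂ)‖ := re_le_norm _
      simp at h3
      linarith
    have hden_ge : ∀ w : ℂ, ‖w‖ ≤ 1 → ‖1 - w‖ ≤ ‖(1 + η - w : ℂ)‖ := by
      intro w hw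
      have h2 : w.re ≤ 1 := (re_le_norm w).trans hw
      rw [← sq_le_sq₀ (norm_nonneg _) (norm_nonneg _), ← normSq_eq_norm_sq, ← normSq_eq_norm_sq,
        normSq_apply, normSq_apply]
      simp
      nlinarith
    set B : ℂ → ℂ := fun w => F w / Θ w * ((1 - w) / (1 + η - w)) with hBdef
    have hB : DifferentiableOn ℂ B (ball 0 1) := by
      intro w hw
      obtain ⟨hw1, hw2⟩ := ne_one_of_mem_ball hw
      have hFw := hF.differentiableAt (isOpen_ball.mem_nhds hw)
      have hΘw := diff_Θ hw1 hw2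
      apply DifferentiableAt.differentiableWithinAt
      apply DifferentiableAt.mul (hFw.div hΘw (Θ_ne_zero w))
      exact DifferentiableAt.div (by fun_prop) (by fun_prop) (hden w hw1)
    have hBM : ∀ w ∈ ball (0:ℂ) 1, ‖B w‖ ≤ M * 2 / η := by
      intro w hw
      obtain ⟨hw1, hw2⟩ := ne_one_of_mem_ball hw
      have hΘ := le_norm_Θ hw1 hw2
      have hΘpos : 0 < ‖Θ w‖ := norm_pos_iff.mpr (Θ_ne_zero w)
      have hpos : 0 < ‖1 - w‖ := norm_pos_iff.mpr (sub_ne_zero.mpr hw2.symm)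
      have hMw := hM w hw
      have hM0 : 0 ≤ M := (norm_nonneg _).trans hMw
      simp only [hBdef, norm_mul, norm_div]
      have h1 : ‖F w‖ / ‖Θ w‖ ≤ M * 2 / ‖1 - w‖ := by
        rw [div_le_div_iff₀ hΘpos hpos]
        have h3 : ‖1 - w‖ ≤ 2 * ‖Θ w‖ := by linarith
        calc ‖F w‖ * ‖1 - w‖ ≤ M * (2 * ‖Θ w‖) := by gcongr
          _ = M * 2 * ‖Θ w‖ := by ring
      have h2 : ‖1 - w‖ / ‖(1 + η - w : ℂ)‖ ≤ ‖1 - w‖ / η := by
        gcongr
        exact hden_eta w hw1
      calc ‖F w‖ / ‖Θ w‖ * (‖1 - w‖ / ‖(1 + η - w : ℂ)‖)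
          ≤ (M * 2 / ‖1 - w‖) * (‖1 - w‖ / η) := by gcongr
        _ = M * 2 / η := by field_simp
    have hBlim : ∀ᵐ t ∂(volume.restrict (Ioc 0 (2 * Real.pi))),
        Tendsto (fun r : ℝ => B (r * circleMap 0 1 t)) (𝓝[<] 1)
          (𝓝 (f t / Θ (circleMap 0 1 t) *
            ((1 - circleMap 0 1 t) / (1 + η - circleMap 0 1 t)))) := by
      filter_upwards [hf, hgood] with t ht hg
      have hΘc : ContinuousAt Θ (circleMap 0 1 t) := (diff_Θ hg.1.le hg.2).continuousAt
      have hq : ContinuousAt (fun w : ℂ => (1 - w) / (1 + η - w)) (circleMap 0 1 t) := by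
        apply ContinuousAt.div (by fun_prop) (by fun_prop) (hden _ hg.1.le)
      exact (ht.div (radial hΘc) (Θ_ne_zero _)).mul (radial hq)
    have hBC : ∀ᵐ t ∂(volume.restrict (Ioc 0 (2 * Real.pi))),
        ‖f t / Θ (circleMap 0 1 t) *
            ((1 - circleMap 0 1 t) / (1 + η - circleMap 0 1 t))‖ ≤ C := by
      filter_upwards [hC, hgood] with t ht hg
      have hΘpos : 0 < ‖Θ (circleMap 0 1 t)‖ := norm_pos_iff.mpr (Θ_ne_zero _)
      rw [norm_mul, norm_div, norm_div]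
      have h1 : ‖f t‖ / ‖Θ (circleMap 0 1 t)‖ ≤ C := by
        rw [div_le_iff₀ hΘpos]; exact ht
      have h2 : ‖1 - circleMap 0 1 t‖ / ‖(1 + η - circleMap 0 1 t : ℂ)‖ ≤ 1 := by
        apply div_le_one_of_le₀ (hden_ge _ hg.1.le) (norm_nonneg _)
      calc _ ≤ C * 1 := by gcongr
        _ = C := mul_one C
    have hBz := max_principle hB hBM hBlim hBC hz
    simp only [hBdef, norm_mul, norm_div] at hBz
    have hΘpos : 0 < ‖Θ z‖ := norm_pos_iff.mpr (Θ_ne_zero z)
    have hdpos : 0 < ‖(1 + η - z : ℂ)‖ := norm_pos_iff.mpr (hden z hzle)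
    have h5 : ‖F z‖ / ‖Θ z‖ * (‖1 - z‖ / ‖(1 + η - z : ℂ)‖) =
        (‖F z‖ * ‖1 - z‖) / (‖Θ z‖ * ‖(1 + η - z : ℂ)‖) := by
      field_simp
    rw [h5, div_le_iff₀ (by positivity)] at hBz
    linarith
  -- let η → 0
  have hlim : Tendsto (fun η : ℝ => C * ‖Θ z‖ * ‖(1 + η - z : ℂ)‖) (𝓝[>] 0)
      (𝓝 (C * ‖Θ z‖ * ‖(1 + (0:ℝ) - z : ℂ)‖)) := by
    have hc : Continuous (fun η : ℝ => C * ‖Θ z‖ * ‖(1 + η - z : ℂ)‖) := by fun_prop
    exact (hc.tendsto 0).mono_left nhdsWithin_le_nhds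
  have hle : ‖F z‖ * ‖1 - z‖ ≤ C * ‖Θ z‖ * ‖(1 + (0:ℝ) - z : ℂ)‖ := by
    apply ge_of_tendsto hlim
    filter_upwards [self_mem_nhdsWithin] with η hη
    exact key η hη
  have hpos : 0 < ‖1 - z‖ := norm_pos_iff.mpr (sub_ne_zero.mpr hzne.symm)
  simp only [ofReal_zero, add_zero] at hle
  exact le_of_mul_le_mul_right hle hpos

lemma abs_G_re_le {z : ℂ} (hz : ‖z‖ ≤ 1) (h1 : z ≠ 1) : |(G z).re| ≤ - Real.log ‖(1 - z) / 2‖ := by
  rw [abs_of_nonpos (G_re_nonpos hz h1)]
  have := L_re_le_G_re hz h1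
  rw [L_re] at this
  linarith

lemma norm_sub_radial {r : ℝ} {ζ : ℂ} (hr0 : 0 ≤ r) (hr : r ≤ 1) (hζ : ‖ζ‖ = 1) :
    ‖1 - ζ‖ ≤ 2 * ‖1 - r * ζ‖ := by
  have h1 : ‖(1:ℂ) - ζ‖ ≤ ‖(1:ℂ) - r * ζ‖ + ‖(r:ℂ) * ζ - ζ‖ := by
    have : (1:ℂ) - ζ = (1 - r * ζ) + (r * ζ - ζ) := by ring
    rw [this]
    exact norm_add_le _ _
  have h2 : ‖(r:ℂ) * ζ - ζ‖ = 1 - r := by
    have : (r:ℂ) * ζ - ζ = ((r - 1 : ℝ) : ℂ) * ζ := by push_cast; ring
    rw [this, norm_mul, hζ, norm_real, mul_one, Real.norm_eq_abs, abs_of_nonpos (by linarith)]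
    ring
  have h3 : 1 - r ≤ ‖(1:ℂ) - r * ζ‖ := by
    have h4 : ‖(1:ℂ)‖ - ‖(r:ℂ) * ζ‖ ≤ ‖(1:ℂ) - r * ζ‖ := norm_sub_norm_le _ _
    rw [norm_mul, hζ, norm_real, mul_one, Real.norm_eq_abs, abs_of_nonneg hr0, norm_one] at h4
    exact h4
  linarith

/-- integrability of the dominating function -/
lemma integrable_dom : Integrable (fun t => Real.log 4 - Real.log ‖circleMap 0 1 t - 1‖)
    (volume.restrict (Ioc 0 (2 * Real.pi))) := by
  have hpi := Real.pi_pos
  have h1 : CircleIntegrable (Real.log ‖· - (1:ℂ)‖) 0 1 := circleIntegrable_log_norm_sub_const 1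
  have h2 := (intervalIntegrable_iff_integrableOn_Ioc_of_le (by positivity)).mp h1
  have h3 : Integrable (fun _ : ℝ => Real.log 4) (volume.restrict (Ioc 0 (2 * Real.pi))) :=
    integrable_const _
  exact h3.sub h2

lemma circle_integrable_Gre : Integrable (fun t => (G (circleMap 0 1 t)).re)
    (volume.restrict (Ioc 0 (2 * Real.pi))) := by
  apply integrable_dom.mono'
  · have hm : Measurable G := by
      unfold G L
      fun_prop
    exact (measurable_re.comp (hm.comp measurable_cm)).aestronglyMeasurable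
  · filter_upwards [ae_of_ae_circ ae_circ_good] with t ht
    rw [Real.norm_eq_abs]
    refine (abs_G_re_le ht.1.le ht.2).trans ?_
    have hpos : 0 < ‖circleMap 0 1 t - 1‖ := norm_pos_iff.mpr (sub_ne_zero.mpr ht.2)
    rw [norm_div, norm_sub_rev, norm_ofNat, Real.log_div hpos.ne' (by norm_num)]
    have : Real.log 2 ≤ Real.log 4 := Real.log_le_log (by norm_num) (by norm_num)
    linarith

/-- Poisson formula for `Re G`. -/
lemma poisson_Gre {z : ℂ} (hz : z ∈ ball (0:ℂ) 1) :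
    (G z).re = (2 * Real.pi)⁻¹ * ∫ t in Ioc 0 (2 * Real.pi),
      (((circleMap 0 1 t + z) / (circleMap 0 1 t - z)).re * (G (circleMap 0 1 t)).re) := by
  have hpi := Real.pi_pos
  have hz1 : ‖z‖ < 1 := by simpa using hz
  set r : ℕ → ℝ := fun n => 1 - 1 / ((n:ℝ) + 2) with hr
  have hr0 : ∀ n, 0 < r n := by
    intro n
    have : (1:ℝ) / ((n:ℝ) + 2) ≤ 1 / 2 := by
      apply one_div_le_one_div_of_le (by norm_num)
      have : (0:ℝ) ≤ n := Nat.cast_nonneg n
      linarith
    simp only [hr]; linarith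
  have hr1 : ∀ n, r n < 1 := by
    intro n
    have : 0 < (1:ℝ) / ((n:ℝ) + 2) := by positivity
    simp only [hr]; linarith
  have hrt : Tendsto r atTop (𝓝[<] 1) := by
    rw [tendsto_nhdsWithin_iff]
    refine ⟨?_, Eventually.of_forall hr1⟩
    have h1 : Tendsto (fun n : ℕ => 1 / ((n:ℝ) + 2)) atTop (𝓝 0) := by
      have h2 := tendsto_one_div_add_atTop_nhds_zero_nat (𝕜 := ℝ)
      have h3 := h2.comp (tendsto_add_atTop_nat 1)
      refine h3.congr ?_
      intro n
      simp only [Function.comp_apply, Nat.cast_add, Nat.cast_one]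
      ring_nf
    have h2 := h1.const_sub (1:ℝ)
    rw [sub_zero] at h2
    exact h2
  have hmem : ∀ n t, (r n : ℂ) * circleMap 0 1 t ∈ ball (0:ℂ) 1 := by
    intro n t
    simp only [mem_ball, dist_zero_right, norm_mul, norm_real, Real.norm_eq_abs,
      abs_of_pos (hr0 n), norm_circleMap_zero, abs_one, mul_one]
    exact hr1 n
  have hcontn : ∀ n, Continuous (fun t : ℝ => G (r n * circleMap 0 1 t)) := by
    intro n
    rw [continuous_iff_continuousAt]
    intro t
    obtain ⟨h1, h2⟩ := ne_one_of_mem_ball (hmem n t)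
    have hc : ContinuousAt (fun t : ℝ => (r n : ℂ) * circleMap 0 1 t) t := by
      have : Continuous (circleMap 0 1) := continuous_circleMap 0 1
      fun_prop
    exact ContinuousAt.comp (g := G) (f := fun t : ℝ => (r n : ℂ) * circleMap 0 1 t)
      (diff_G h1 h2).continuousAt hc
  have hpf : ∀ n, (G (r n * z)).re = (2 * Real.pi)⁻¹ * ∫ t in Ioc 0 (2 * Real.pi),
      (((circleMap 0 1 t + z) / (circleMap 0 1 t - z)).re * (G (r n * circleMap 0 1 t)).re) := by
    intro n
    have hd : DiffContOnCl ℂ (fun w => G (r n * w)) (ball 0 1) := by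
      have h1 : DifferentiableOn ℂ (fun w => G (r n * w)) (closure (ball 0 1)) := by
        intro w hw
        have hw1 : ‖w‖ ≤ 1 := by
          have := closure_ball_subset_closedBall hw
          simpa using this
        have hw2 : (r n : ℂ) * w ∈ ball (0:ℂ) 1 := by
          simp only [mem_ball, dist_zero_right, norm_mul, norm_real, Real.norm_eq_abs,
            abs_of_pos (hr0 n)]
          nlinarith [hr1 n, hr0 n, norm_nonneg w]
        obtain ⟨h1, h2⟩ := ne_one_of_mem_ball hw2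
        apply DifferentiableAt.differentiableWithinAt
        exact (diff_G h1 h2).comp w (by fun_prop)
      exact h1.diffContOnCl
    have h2 := hd.circleAverage_re_herglotzRieszKernel_smul' hz
    rw [Real.circleAverage, intervalIntegral.integral_of_le (by positivity)] at h2
    simp only [sub_zero] at h2
    have h3 := congrArg Complex.re h2
    rw [← h3, Complex.real_smul, re_ofReal_mul]
    congr 1
    have hint : Integrable (fun t : ℝ =>
        ((circleMap 0 1 t + z) / (circleMap 0 1 t - z)).re • G (r n * circleMap 0 1 t))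
        (volume.restrict (Ioc 0 (2 * Real.pi))) := by
      have hc : Continuous (fun t : ℝ =>
        ((circleMap 0 1 t + z) / (circleMap 0 1 t - z)).re • G (r n * circleMap 0 1 t)) :=
        Continuous.smul (f := fun t => ((circleMap 0 1 t + z) / (circleMap 0 1 t - z)).re)
          (continuous_re.comp (kernel_continuous hz1)) (hcontn n)
      exact (hc.continuousOn.integrableOn_compact isCompact_Icc).mono_set Ioc_subset_Icc_self
    have h4 := reCLM.integral_comp_comm hint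
    simp only [reCLM_apply] at h4
    rw [← h4]
    congr 1
    ext t
    simp
  have hlim1 : Tendsto (fun n => (G (r n * z)).re) atTop (𝓝 (G z).re) := by
    obtain ⟨h1, h2⟩ := ne_one_of_mem_ball hz
    have h3 := radial (diff_G h1 h2).continuousAt
    exact (continuous_re.tendsto _).comp (h3.comp hrt)
  obtain ⟨K, hK⟩ : ∃ K, ∀ t ∈ Icc 0 (2 * Real.pi),
      ‖(circleMap 0 1 t + z) / (circleMap 0 1 t - z)‖ ≤ K :=
    isCompact_Icc.exists_bound_of_continuousOn (kernel_continuous hz1).continuousOn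
  have hlim2 : Tendsto (fun n => ∫ t in Ioc 0 (2 * Real.pi),
      (((circleMap 0 1 t + z) / (circleMap 0 1 t - z)).re * (G (r n * circleMap 0 1 t)).re)) atTop
      (𝓝 (∫ t in Ioc 0 (2 * Real.pi),
      (((circleMap 0 1 t + z) / (circleMap 0 1 t - z)).re * (G (circleMap 0 1 t)).re))) := by
    apply tendsto_integral_of_dominated_convergence
      (bound := fun t => K * (Real.log 4 - Real.log ‖circleMap 0 1 t - 1‖))
    · intro n
      apply Continuous.aestronglyMeasurable
      exact (continuous_re.comp (kernel_continuous hz1)).mul (continuous_re.comp (hcontn n))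
    · exact integrable_dom.const_mul K
    · intro n
      rw [ae_restrict_iff' measurableSet_Ioc]
      have hg := (ae_restrict_iff' measurableSet_Ioc).mp (ae_of_ae_circ ae_circ_good)
      filter_upwards [hg] with t htg ht
      have hg := htg ht
      rw [norm_mul]
      have h1 := hK t ⟨ht.1.le, ht.2⟩
      have h2 : ‖((circleMap 0 1 t + z) / (circleMap 0 1 t - z)).re‖ ≤ K :=
        (abs_re_le_norm _).trans h1
      have h3 : ‖(G (r n * circleMap 0 1 t)).re‖ ≤
          Real.log 4 - Real.log ‖circleMap 0 1 t - 1‖ := by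
        obtain ⟨h4, h5⟩ := ne_one_of_mem_ball (hmem n t)
        rw [Real.norm_eq_abs]
        refine (abs_G_re_le h4 h5).trans ?_
        have hpos : 0 < ‖circleMap 0 1 t - 1‖ := norm_pos_iff.mpr (sub_ne_zero.mpr hg.2)
        have hpos2 : 0 < ‖(1:ℂ) - r n * circleMap 0 1 t‖ :=
          norm_pos_iff.mpr (sub_ne_zero.mpr h5.symm)
        have h6 := norm_sub_radial (hr0 n).le (hr1 n).le hg.1
        rw [norm_sub_rev] at h6
        rw [norm_div, norm_ofNat, Real.log_div hpos2.ne' (by norm_num)]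
        have h7 : Real.log ‖circleMap 0 1 t - 1‖ ≤
            Real.log 2 + Real.log ‖(1:ℂ) - r n * circleMap 0 1 t‖ := by
          rw [← Real.log_mul (by norm_num) hpos2.ne']
          exact Real.log_le_log hpos h6
        have h8 : Real.log 4 = Real.log 2 + Real.log 2 := by
          rw [← Real.log_mul (by norm_num) (by norm_num)]; norm_num
        linarith
      exact mul_le_mul h2 h3 (norm_nonneg _) ((norm_nonneg _).trans h2)
    · filter_upwards [ae_of_ae_circ ae_circ_good] with t ht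
      apply Tendsto.const_mul
      have h3 := radial (diff_G ht.1.le ht.2).continuousAt
      exact (continuous_re.tendsto _).comp (h3.comp hrt)
  have hlim3 := hlim2.const_mul ((2 * Real.pi)⁻¹ : ℝ)
  exact tendsto_nhds_unique hlim1 (hlim3.congr (fun n => (hpf n).symm))

lemma log_norm_Θ (z : ℂ) : Real.log ‖Θ z‖ = (G z).re := by
  rw [norm_Θ, Real.log_exp]

lemma integrable_circ_of {g : ℂ → ℝ} (hg : Measurable g)
    (h : Integrable (fun t => g (circleMap 0 1 t)) (volume.restrict (Ioc 0 (2 * Real.pi)))) :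
    Integrable g circ := by
  unfold circ
  apply Integrable.smul_measure _ (by simp)
  rw [integrable_map_measure hg.aestronglyMeasurable measurable_cm.aemeasurable]
  exact h

lemma measurable_G : Measurable G := by
  unfold G L
  fun_prop

lemma measurable_Θ : Measurable Θ := by
  unfold Θ
  have := measurable_G
  fun_prop

lemma measurable_Hf : Measurable Hf := by
  unfold Hf L
  fun_prop

lemma integrable_log_Θ : Integrable (fun ζ => Real.log ‖Θ ζ‖) circ := by
  simp_rw [log_norm_Θ]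
  apply integrable_circ_of (measurable_re.comp measurable_G)
  exact circle_integrable_Gre

/-- `Θ` is outer. -/
lemma outer_Θ : ∃ c : ℂ, ‖c‖ = 1 ∧ ∀ z ∈ ball (0:ℂ) 1,
    Θ z = c * Complex.exp (∫ ζ, (ζ + z) / (ζ - z) * (Real.log ‖Θ ζ‖ : ℂ) ∂circ) := by
  have hpi := Real.pi_pos
  set S : ℂ → ℂ := fun w => Real.circleAverage
    (fun ζ => herglotzRieszKernel 0 w ζ • (((G ζ).re : ℝ) : ℂ)) 0 1 with hS
  have hgi : CircleIntegrable (fun ζ => (G ζ).re) 0 1 := by
    unfold CircleIntegrable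
    rw [intervalIntegrable_iff_integrableOn_Ioc_of_le (by positivity)]
    exact circle_integrable_Gre
  have hgi' : CircleIntegrable (fun ζ => (((G ζ).re : ℝ) : ℂ)) 0 1 := by
    unfold CircleIntegrable at hgi ⊢
    rw [intervalIntegrable_iff] at hgi ⊢
    exact Complex.ofRealCLM.integrable_comp hgi
  have hSd : DifferentiableOn ℂ S (ball 0 1) :=
    differentiableOn_circleAverage_herglotzRieszKernel_smul hgi'
  have hSre : ∀ w ∈ ball (0:ℂ) 1, (S w).re = (G w).re := by
    intro w hw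
    have h1 := re_circleAverage_herglotzRieszKernel_smul hgi hw
    rw [hS]
    simp only
    rw [h1, poisson_Gre hw, Real.circleAverage, intervalIntegral.integral_of_le (by positivity)]
    simp only [smul_eq_mul, Pi.smul_apply', Function.comp_apply,
      herglotzRieszKernel_def, sub_zero]
  have hGd : DifferentiableOn ℂ G (ball 0 1) := by
    intro w hw
    obtain ⟨h1, h2⟩ := ne_one_of_mem_ball hw
    exact (diff_G h1 h2).differentiableWithinAt
  have hD : AnalyticOnNhd ℂ (fun w => G w - S w) (ball 0 1) :=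
    (hGd.sub hSd).analyticOnNhd isOpen_ball
  obtain ⟨κ, hκ⟩ := hD.eq_re_add_const_mul_I_of_re_eq_const (c₀ := 0)
    (by intro w hw; simp [hSre w hw]) isOpen_ball
    ((convex_ball (0:ℂ) 1).isConnected ⟨0, by simp⟩)
  refine ⟨Complex.exp (κ * I), Complex.norm_exp_ofReal_mul_I κ, ?_⟩
  intro z hz
  have hz1 : ‖z‖ < 1 := by simpa using hz
  have h1 : (∫ ζ, (ζ + z) / (ζ - z) * (Real.log ‖Θ ζ‖ : ℂ) ∂circ) = S z := by
    rw [integral_circ]
    · rw [hS]
      simp only
      congr 1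
      ext ζ
      rw [log_norm_Θ, herglotzRieszKernel_def, smul_eq_mul, sub_zero, sub_zero]
    · apply Measurable.aestronglyMeasurable
      have := measurable_Θ
      fun_prop
  rw [h1, ← Complex.exp_add, Θ]
  congr 1
  have h2 := hκ z hz
  simp only [ofReal_zero, zero_add] at h2
  rw [← h2]; ring

/-! ## The counterexample -/

lemma memLp_Θ : MemLp Θ ⊤ circ := by
  apply memLp_top_of_bound measurable_Θ.aestronglyMeasurable 1
  filter_upwards [ae_circ_good] with ζ hζ
  exact norm_Θ_le_one hζ.1.le hζ.2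

lemma memLp_Hf : MemLp Hf ⊤ circ := by
  apply memLp_top_of_bound measurable_Hf.aestronglyMeasurable (Real.exp (Real.pi / 2))
  filter_upwards [ae_circ_good] with ζ hζ
  exact norm_Hf_le hζ.1.le hζ.2

/-- the part of the circle where `Θ` may be small -/
def AA : Set ℂ := {ζ | Real.pi / 4 ≤ arg ((1 - ζ) / 2)}

lemma measurable_AA : MeasurableSet AA := by
  unfold AA
  apply measurableSet_le measurable_const
  exact measurable_arg.comp (by fun_prop)

/-- the function `f = h 1_A` -/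
noncomputable def ff : ℂ → ℂ := AA.indicator Hf

lemma measurable_ff : Measurable ff := measurable_Hf.indicator measurable_AA

lemma norm_ff (ζ : ℂ) : ‖ff ζ‖ ≤ Real.exp (-(Real.pi / 4)) := by
  unfold ff
  by_cases h : ζ ∈ AA
  · rw [indicator_of_mem h]
    exact norm_Hf_le_of_ge h
  · rw [indicator_of_notMem h]
    simp [Real.exp_nonneg]

lemma memLp_ff : MemLp ff ⊤ circ :=
  memLp_top_of_bound measurable_ff.aestronglyMeasurable _ (Eventually.of_forall norm_ff)

lemma exp_lt_one : Real.exp (-(Real.pi / 4)) < 1 := by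
  have := Real.pi_pos
  rw [Real.exp_lt_one_iff]
  linarith

/-- the function `g` with `f = h + θ g` -/
noncomputable def gg : ℂ → ℂ := fun ζ => - AAᶜ.indicator (fun w => Hf w / Θ w) ζ

lemma measurable_gg : Measurable gg :=
  ((measurable_Hf.div measurable_Θ).indicator measurable_AA.compl).neg

lemma memLp_gg : MemLp gg ⊤ circ := by
  apply memLp_top_of_bound measurable_gg.aestronglyMeasurable (Real.exp (Real.pi / 2) * 2)
  filter_upwards [ae_circ_good] with ζ hζ
  unfold gg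
  rw [norm_neg]
  by_cases h : ζ ∈ AAᶜ
  · rw [indicator_of_mem h, norm_div]
    have h1 : arg ((1 - ζ) / 2) < Real.pi / 4 := by
      simpa [AA] using h
    have h2 := half_le_norm_Θ hζ.1 hζ.2 h1
    have h3 := norm_Hf_le hζ.1.le hζ.2
    rw [div_le_iff₀ (by linarith)]
    calc ‖Hf ζ‖ ≤ Real.exp (Real.pi / 2) := h3
      _ = Real.exp (Real.pi / 2) * 2 * (1 / 2) := by ring
      _ ≤ Real.exp (Real.pi / 2) * 2 * ‖Θ ζ‖ := by gcongr
  · rw [indicator_of_notMem h, norm_zero]
    positivity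

/-- the function `1/(1-f)` -/
noncomputable def kk : ℂ → ℂ := fun ζ => 1 / (1 - ff ζ)

lemma memLp_kk : MemLp kk ⊤ circ := by
  have hm : Measurable kk := by
    unfold kk
    have := measurable_ff
    fun_prop
  apply memLp_top_of_bound hm.aestronglyMeasurable (1 / (1 - Real.exp (-(Real.pi / 4))))
  apply Eventually.of_forall
  intro ζ
  unfold kk
  rw [norm_div, norm_one]
  have h1 := norm_ff ζ
  have h2 := exp_lt_one
  apply one_div_le_one_div_of_le (by linarith)
  have h3 : ‖(1:ℂ)‖ - ‖ff ζ‖ ≤ ‖1 - ff ζ‖ := norm_sub_norm_le _ _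
  rw [norm_one] at h3
  linarith

/-- **Negative answer.** There is a bounded outer function `θ` and a function
`f ∈ H^∞ + θ L^∞` with `‖f‖_∞ < 1` such that the function `k = 1 / (1 - f) ∈ L^∞` does not belong
to `H^∞ + θ L^∞`.  Hence `H^∞ + θ L^∞` is not a generalized Douglas algebra. -/
theorem result : ∃ θ : LInfty, IsBoundedOuter θ ∧ ∃ f ∈ HInftyPlus θ, ‖f‖ < 1 ∧
    ∃ k : LInfty, (∀ᵐ ζ ∂circ, k ζ = 1 / (1 - f ζ)) ∧ k ∉ HInftyPlus θ := by
  have hθae : (memLp_Θ.toLp Θ : ℂ → ℂ) =ᵐ[circ] Θ := MemLp.coeFn_toLp memLp_Θ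
  have hhae : (memLp_Hf.toLp Hf : ℂ → ℂ) =ᵐ[circ] Hf := MemLp.coeFn_toLp memLp_Hf
  have hfae : (memLp_ff.toLp ff : ℂ → ℂ) =ᵐ[circ] ff := MemLp.coeFn_toLp memLp_ff
  have hgae : (memLp_gg.toLp gg : ℂ → ℂ) =ᵐ[circ] gg := MemLp.coeFn_toLp memLp_gg
  have hkae : (memLp_kk.toLp kk : ℂ → ℂ) =ᵐ[circ] kk := MemLp.coeFn_toLp memLp_kk
  have hΘBA : IsBoundedAnalytic Θ := by
    refine ⟨?_, 1, ?_⟩
    · intro z hz
      obtain ⟨h1, h2⟩ := ne_one_of_mem_ball hz
      exact (diff_Θ h1 h2).differentiableWithinAt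
    · intro z hz
      obtain ⟨h1, h2⟩ := ne_one_of_mem_ball hz
      exact norm_Θ_le_one h1 h2
  have hHBA : IsBoundedAnalytic Hf := by
    refine ⟨?_, Real.exp (Real.pi / 2), ?_⟩
    · intro z hz
      obtain ⟨h1, h2⟩ := ne_one_of_mem_ball hz
      exact (diff_Hf h1 h2).differentiableWithinAt
    · intro z hz
      obtain ⟨h1, h2⟩ := ne_one_of_mem_ball hz
      exact norm_Hf_le h1 h2
  refine ⟨memLp_Θ.toLp Θ, ?_, memLp_ff.toLp ff, ?_, ?_, memLp_kk.toLp kk, ?_, ?_⟩
  · -- outer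
    refine ⟨Θ, hΘBA, ?_, ?_, ?_⟩
    · filter_upwards [hθae, ae_circ_good] with ζ h1 h2
      rw [h1]
      exact radial (diff_Θ h2.1.le h2.2).continuousAt
    · apply integrable_log_Θ.congr
      filter_upwards [hθae] with ζ h1
      rw [h1]
    · obtain ⟨c, hc1, hc2⟩ := outer_Θ
      refine ⟨c, hc1, ?_⟩
      intro z hz
      rw [hc2 z hz]
      congr 2
      apply integral_congr_ae
      filter_upwards [hθae] with ζ h1
      rw [h1]
  · -- f ∈ H^∞ + θ L^∞
    refine ⟨memLp_Hf.toLp Hf, ⟨Hf, hHBA, ?_⟩, memLp_gg.toLp gg, ?_⟩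
    · filter_upwards [hhae, ae_circ_good] with ζ h1 h2
      rw [h1]
      exact radial (diff_Hf h2.1.le h2.2).continuousAt
    · filter_upwards [hhae, hfae, hgae, hθae] with ζ h1 h2 h3 h4
      rw [h1, h2, h3, h4]
      unfold ff gg
      by_cases h : ζ ∈ AA
      · rw [indicator_of_mem h, indicator_of_notMem (by simpa using h)]
        simp
      · rw [indicator_of_notMem h, indicator_of_mem (by simpa using h)]
        have := Θ_ne_zero ζ
        field_simp
        ring
  · -- norm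
    rw [Lp.norm_toLp]
    refine lt_of_le_of_lt ?_ exp_lt_one
    apply ENNReal.toReal_le_of_le_ofReal (Real.exp_nonneg _)
    rw [eLpNorm_exponent_top]
    exact eLpNormEssSup_le_of_ae_bound (Eventually.of_forall norm_ff)
  · filter_upwards [hfae, hkae] with ζ h1 h2
    rw [h1, h2]
    rfl
  · -- the contradiction
    rintro ⟨H, ⟨Hext, ⟨hHd, ⟨M, hM⟩⟩, hHb⟩, g, hg⟩
    set E : ℝ := Real.exp (Real.pi / 2) with hE
    have hEpos : 0 < E := Real.exp_pos _
    have hM0 : 0 ≤ M := (norm_nonneg _).trans (hM 0 (by simp))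
    -- essential bound for `g`
    obtain ⟨N, hN0, hN⟩ : ∃ N : ℝ, 0 ≤ N ∧ ∀ᵐ ζ ∂circ, ‖g ζ‖ ≤ N := by
      refine ⟨(eLpNormEssSup g circ).toReal, ENNReal.toReal_nonneg, ?_⟩
      have hfin : eLpNormEssSup g circ ≠ ⊤ := by
        have := (Lp.memLp g).2
        rw [eLpNorm_exponent_top] at this
        exact this.ne
      filter_upwards [ae_le_eLpNormEssSup (f := g) (μ := circ)] with ζ hζ
      have := ENNReal.toReal_mono hfin hζ
      simpa using this
    set F : ℂ → ℂ := fun z => (1 - Hf z) * Hext z - 1 with hF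
    set M' : ℝ := (1 + E) * M + 1 with hM'
    have hFd : DifferentiableOn ℂ F (ball 0 1) := by
      have h1 := hHBA.1
      fun_prop
    have hFM : ∀ z ∈ ball (0:ℂ) 1, ‖F z‖ ≤ M' := by
      intro z hz
      obtain ⟨h1, h2⟩ := ne_one_of_mem_ball hz
      have h3 := norm_Hf_le h1 h2
      have h4 := hM z hz
      calc ‖F z‖ ≤ ‖(1 - Hf z) * Hext z‖ + ‖(1:ℂ)‖ := norm_sub_le _ _
        _ = ‖1 - Hf z‖ * ‖Hext z‖ + 1 := by rw [norm_mul, norm_one]
        _ ≤ (1 + E) * M + 1 := by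
            gcongr
            calc ‖1 - Hf z‖ ≤ ‖(1:ℂ)‖ + ‖Hf z‖ := norm_sub_le _ _
              _ ≤ 1 + E := by rw [norm_one]; gcongr
    have hM'0 : 0 ≤ M' := by positivity
    set C : ℝ := (1 + E) * N + 2 * M' with hC
    have hlimF : ∀ᵐ t ∂(volume.restrict (Ioc 0 (2 * Real.pi))),
        Tendsto (fun r : ℝ => F (r * circleMap 0 1 t)) (𝓝[<] 1)
          (𝓝 ((1 - Hf (circleMap 0 1 t)) * H (circleMap 0 1 t) - 1)) := by
      filter_upwards [ae_of_ae_circ hHb, ae_of_ae_circ ae_circ_good] with t h1 h2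
      have h3 := radial (diff_Hf h2.1.le h2.2).continuousAt
      exact ((tendsto_const_nhds.sub h3).mul h1).sub tendsto_const_nhds
    have hbd : ∀ᵐ t ∂(volume.restrict (Ioc 0 (2 * Real.pi))),
        ‖(1 - Hf (circleMap 0 1 t)) * H (circleMap 0 1 t) - 1‖ ≤ C * ‖Θ (circleMap 0 1 t)‖ := by
      filter_upwards [hlimF, ae_of_ae_circ hθae, ae_of_ae_circ hkae, ae_of_ae_circ hg,
        ae_of_ae_circ hN, ae_of_ae_circ ae_circ_good] with t ht hθ hk hg hN hgood
      set ζ := circleMap 0 1 t with hζ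
      rw [hθ, hk] at hg
      have hΘpos : 0 < ‖Θ ζ‖ := norm_pos_iff.mpr (Θ_ne_zero ζ)
      have hHle : ‖1 - Hf ζ‖ ≤ 1 + E := by
        calc ‖1 - Hf ζ‖ ≤ ‖(1:ℂ)‖ + ‖Hf ζ‖ := norm_sub_le _ _
          _ ≤ 1 + E := by rw [norm_one]; gcongr; exact norm_Hf_le hgood.1.le hgood.2
      by_cases hA : ζ ∈ AA
      · have h1 : kk ζ = 1 / (1 - Hf ζ) := by
          unfold kk ff
          rw [indicator_of_mem hA]
        have hne : (1 - Hf ζ) ≠ 0 := by
          intro h0
          have h2 : Hf ζ = 1 := (sub_eq_zero.mp h0).symm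
          have h3 := norm_Hf_le_of_ge hA
          rw [h2, norm_one] at h3
          linarith [exp_lt_one]
        have h4 : (1 - Hf ζ) * H ζ - 1 = - ((1 - Hf ζ) * (Θ ζ * g ζ)) := by
          rw [h1] at hg
          field_simp at hg
          linear_combination -hg
        rw [h4, norm_neg, norm_mul, norm_mul]
        calc ‖1 - Hf ζ‖ * (‖Θ ζ‖ * ‖g ζ‖) ≤ (1 + E) * (‖Θ ζ‖ * N) := by gcongr
          _ = ((1 + E) * N) * ‖Θ ζ‖ := by ring
          _ ≤ C * ‖Θ ζ‖ := by
              apply mul_le_mul_of_nonneg_right _ hΘpos.le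
              rw [hC]; linarith
      · have h1 : arg ((1 - ζ) / 2) < Real.pi / 4 := by
          simpa [AA] using hA
        have h2 := half_le_norm_Θ hgood.1 hgood.2 h1
        have h3 : ‖(1 - Hf ζ) * H ζ - 1‖ ≤ M' := by
          apply le_of_tendsto ht.norm
          have h4 : Ioo (0:ℝ) 1 ∈ 𝓝[<] (1:ℝ) := Ioo_mem_nhdsLT (by norm_num)
          filter_upwards [h4] with r hr
          apply hFM
          simp only [mem_ball, dist_zero_right, norm_mul, norm_real, Real.norm_eq_abs,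
            abs_of_pos hr.1, hgood.1, mul_one]
          exact hr.2
        calc ‖(1 - Hf ζ) * H ζ - 1‖ ≤ M' := h3
          _ = 2 * M' * (1 / 2) := by ring
          _ ≤ 2 * M' * ‖Θ ζ‖ := by gcongr
          _ ≤ C * ‖Θ ζ‖ := by
              apply mul_le_mul_of_nonneg_right _ hΘpos.le
              rw [hC]
              have : 0 ≤ (1 + E) * N := by positivity
              linarith
    -- evaluate at the points `rr n`
    have hev : ∀ n : ℕ, 1 ≤ n → 1 ≤ C * Real.exp (-(Real.pi * n)) := by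
      intro n hn
      have h1 := compare hFd hFM hlimF hbd (rr_mem n hn)
      rw [norm_Θ_rr] at h1
      have h2 : F (rr n) = -1 := by
        simp only [hF, Hf_rr]
        ring
      rw [h2, norm_neg, norm_one] at h1
      exact h1
    have hlim : Tendsto (fun n : ℕ => C * Real.exp (-(Real.pi * n))) atTop (𝓝 0) := by
      have h1 : Tendsto (fun n : ℕ => Real.pi * (n:ℝ)) atTop atTop :=
        Tendsto.const_mul_atTop Real.pi_pos tendsto_natCast_atTop_atTop
      have h2 := (Real.tendsto_exp_neg_atTop_nhds_zero.comp h1).const_mul C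
      simpa using h2
    have h3 : (1:ℝ) ≤ 0 := by
      apply ge_of_tendsto hlim
      filter_upwards [eventually_ge_atTop 1] with n hn
      exact hev n hn
    linarith

end Pool.Agent.Results.MP_c4e2dd_an.NotGDAlgebra
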